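import Pool.Agent.H31.NJ.Nea
import Pool.Agent.H88.NJ.Low

/-!
# The moved place is full: a mesh of windows

`low_mesh`: a lower bound of an entropy along a mesh. `vfC_msh`: `VfC` at one box from `FulP` at the
earlier window `b` and no look-ahead along the mesh and from `w` to `x`.
-/

set_option autoImplicit false

namespace Pool.FUL71

open Finset Real MvPolynomial
open Pool.Agent.H49.Ent Pool.Agent.H32.Dense Pool.STK Pool.KA Pool.KSAT Pool.K2S Pool.PB Pool.S6C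
open Pool.GEN Pool.RCD Pool.LA91 Pool.AVG96 Pool.AVG57 Pool.FUL95
open Pool.NJ88 (low_step low_cond vfC_low)

/-- **A lower bound along a mesh of windows.** -/
theorem low_mesh {m : ℕ} {U V : Type} {α γ : ∀ J : ℕ, Fam m J → Type}
    {f : ∀ (J : ℕ) (F : Fam m J), F.Ω → α J F} {y : ∀ (J : ℕ) (F : Fam m J), F.Ω → γ J F}
    {S : PCl m} {Qn : Qt m U} {Q2 : Qt m V} {G : Set ℝ} {b w h ρ₀ ε θ₀ : ℝ} (hb : b ∈ G)
    (hh : 2 * ρ₀ < h) (hρ : 0 ≤ ρ₀) (hε : 0 ≤ ε)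
    (gap : ∀ x, b ≤ x → x ≤ w → ∃ v ∈ G, |v - x| ≤ ρ₀)
    (h0 : LowN S f (vg b) y Qn Q2 θ₀)
    (step : ∀ u ∈ G, ∀ v ∈ G, b ≤ u → u ≤ v → v ≤ w → v ≤ u + h → ∀ θ : ℝ,
      LowN S f (vg u) y Qn Q2 θ → LowN S f (vg v) y Qn Q2 (θ - ε)) (n : ℕ) :
    ∀ o ∈ G, b ≤ o → o ≤ w → o - b ≤ n * (h - 2 * ρ₀) →
      LowN S f (vg o) y Qn Q2 (θ₀ - n * ε) := by
  induction n with
  | zero =>
    intro o ho hbo how h1
    have h2 : o = b := by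
      rw [Nat.cast_zero, zero_mul] at h1
      linarith
    rw [h2, Nat.cast_zero, zero_mul, sub_zero]
    exact h0
  | succ n ih =>
    intro o ho hbo how h1
    have hn : (0 : ℝ) ≤ n := Nat.cast_nonneg n
    rcases le_or_gt (o - b) h with h2 | h2
    · refine (step b hb o ho le_rfl hbo how (by linarith) _ h0).le ?_
      push_cast
      nlinarith
    · obtain ⟨v, hv, hv1⟩ := gap (o - (h - ρ₀)) (by linarith) (by linarith)
      rw [abs_le] at hv1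
      have h3 := ih v hv (by linarith) (by linarith) (by
        push_cast at h1
        linarith)
      refine (step v hv o ho (by linarith) (by linarith) how (by linarith) _ h3).le ?_
      push_cast
      linarith

variable {m : ℕ} {γ : ∀ J : ℕ, Fam m J → Type} {S : PCl m} {c : ℕ → Fin m}
  {y : ∀ (J : ℕ) (F : Fam m J), F.Ω → γ J F} {s A B Λ : ℝ} {sn : ℝ → ℕ → ℝ} {G : Set ℝ}
  {a : ℕ → ℝ} {A' B' σ₀ : ℝ} {lv : ℕ → ℝ} {b w x : ℝ}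

/-- **The moved place is full** in one box, along a mesh. -/
theorem vfC_msh {p n n' : ℕ → ℝ} {P N₁ N₂ Na Nb Nd ℓ ℓ₂ σ δ η ε θ d : ℝ}
    (T : T2N sn G b w Λ p n n' P N₁ N₂ Na Nb Nd ℓ ℓ₂ σ δ)
    (Tm : ∀ o ∈ G, b ≤ o → o ≤ w → ∃ (n n' : ℕ → ℝ) (Nb ℓ ℓ₂ : ℝ), n 1 = sn o 1 + d ∧
      n' 1 = sn o 1 + d ∧
      T2N sn G b o Λ (sn o) n n' P N₁ N₂ (sn o 2 + d) Nb (sn o 2 - o + d) ℓ ℓ₂ σ δ)
    (hd : d + σ ≤ Λ)
    (hF : FarR sn G 1 3 a Λ A' B' lv σ₀)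
    (h : GCh S (fun J F => ptr F J) y c 1 3 s A B Λ sn G) (hA : A ≤ A') (hB : B' ≤ B)
    (hb : b ∈ G) (hw : w ∈ G) (hbA : A' < b) (hbw : b ≤ w) (hwB : w < B') (hwx : w ≤ x)
    (hx : x ≤ 1) (hP : (w - b) + P ≤ σ₀ / 2) (hPΛ : (w - b) + P + σ₀ / 2 ≤ Λ)
    (hN₁ : N₁ ≤ σ₀ / 2) (hN₂ : N₂ ≤ σ₀ / 2) (hNΛ : N₁ + σ₀ / 2 ≤ Λ)
    (hNΛ' : N₂ + σ₀ / 2 ≤ Λ) (hL : FulP S y c 1 b (sn b) (sn b) P N₁ N₂ η) (hε : 0 ≤ ε)
    (hM : ∀ u ∈ G, b ≤ u → u ≤ w → ∀ v : ℝ, u ≤ v → ((v ≤ w ∧ v ≤ u + 3 * δ) ∨ (u = w ∧ v = x)) →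
      MIw S (fun J F => ptr F J) y u v (jetQ m c 1 3 u (sn u) (nD sn a))
        (jetQ m c 1 3 u (sn u) (ndb sn u d)) ε)
    {k : ℕ} (hk : w - b ≤ k * δ)
    (hθ : (Nb - Na) * Real.log 2 - θ < (N₂ - P) * Real.log 2 - η - (k + 1) * ε) :
    VfC S y c 1 2 w x p n n' Na Nb Nd θ := by
  have hbB : b < B' := hbw.trans_lt hwB
  have hA1 : A ≤ b := by linarith
  have hB1 : w < B := by linarith
  have hL' : LowN S (fun J F => ptr F J) (vg b) y (jetQ m c 1 3 b (sn b) (ndb sn b P))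
      ((qJet m ((range 1).image c) (c 1) 0 b (sn b 1) (sn b 1 + N₁)).prod
        (qJet m ((range 2).image c) (c 2) 0 b (sn b 2) (sn b 2 + N₂)))
      (((N₁ - P) + (N₂ - P)) * Real.log 2 - η) := hL
  have h0 := (low_cond h.pos hL' (T.g5 h hb hA1 hbw hB1)).le
    (θ' := (N₂ - P) * Real.log 2 - η) (by linarith)
  have fN : ∀ o ∈ G, b ≤ o → o ≤ w → Few S (fun J F => ptr F J) (vg o) y (nh m c sn b P N₁)
      (jetQ m c 1 3 o (sn o) (ndb sn o d)) := by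
    intro o ho hbo how
    obtain ⟨n₁, n₁', Nb₁, ℓ₁, ℓ₂', e1, e2, T'⟩ := Tm o ho hbo how
    exact T'.near h hb ho hA1 hbo (by linarith) e1 e2 hd
  have step : ∀ u ∈ G, b ≤ u → u ≤ w → ∀ v : ℝ, u ≤ v →
      ((v ≤ w ∧ v ≤ u + 3 * δ) ∨ (u = w ∧ v = x)) → ∀ θ : ℝ,
      LowN S (fun J F => ptr F J) (vg u) y (nh m c sn b P N₁)
        (qJet m ((range 2).image c) (c 2) 0 b (sn b 2) (sn b 2 + N₂)) θ →
      LowN S (fun J F => ptr F J) (vg v) y (nh m c sn b P N₁)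
        (qJet m ((range 2).image c) (c 2) 0 b (sn b 2) (sn b 2 + N₂)) (θ - ε) := by
    intro u hu hbu huw v huv hc θ h1
    exact low_step h.pos h1 (hM u hu hbu huw v huv hc) (fN u hu hbu huw)
      (far_nh hF h hA hB hb hu hbA hbu (by linarith) (by linarith) (by linarith) hN₁ hNΛ)
      (far_h2 hF h hA hB hb hu hbA hbu (by linarith) hN₂ hNΛ')
      (h.exsjs hu (hA1.trans hbu) (by linarith) le_rfl 1 _)
      (h.exsjs hu (hA1.trans hbu) (by linarith) le_rfl 1 _)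
  have hδ := T.δ0
  have h1 := low_mesh hb (h := 3 * δ) (ρ₀ := δ) (by linarith) hδ.le hε T.gap h0
    (fun u hu v hv q1 q2 q3 q4 θ => step u hu q1 (q2.trans q3) v q2 (Or.inl ⟨q3, q4⟩) θ) k w hw
    hbw le_rfl (by linarith)
  have h2 := step w hw hbw le_rfl x hwx (Or.inr ⟨rfl, rfl⟩) _ h1
  exact vfC_low h.pos hwx hx h2
    (T.g1 h hb hw hA1 hbw hB1) (T.g2 h hb hw hA1 hbw hB1) (T.g3 h hb hw hA1 hbw hB1)
    (T.g4 h hb hw hA1 hbw hB1) (h.exsjs hb hA1 (by linarith) le_rfl 1 _)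
    (h.exsj hb hA1 (by linarith) (by norm_num) (by norm_num) 0 _)
    (h.exsj hb hA1 (by linarith) (by norm_num) (by norm_num) 0 _) (by linarith)

end Pool.FUL71
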