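import Pool.Agent.H71.FUL.Fud

/-!
# Few bits between a window of the mesh and the earlier window

`T2N.near`: the near digits at a window `o` from the near digits at `b` and the height of the place
`1`. `far_nh`: these from the far digits at `o`. `far_h2`: the height of the place `2` over labels of
`b` from the far digits at `o`.
-/

set_option autoImplicit false

namespace Pool.FUL71

open Finset Real MvPolynomial
open Pool.Agent.H49.Ent Pool.Agent.H32.Dense Pool.STK Pool.KA Pool.KSAT Pool.K2S Pool.PB Pool.S6C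
open Pool.GEN Pool.RCD Pool.LA91 Pool.AVG96 Pool.AVG57 Pool.FUL95

variable {m : ℕ} {γ : ∀ J : ℕ, Fam m J → Type} {S : PCl m} {c : ℕ → Fin m}
  {y : ∀ (J : ℕ) (F : Fam m J), F.Ω → γ J F} {s A B Λ : ℝ} {sn : ℝ → ℕ → ℝ} {G : Set ℝ}
  {b o : ℝ} {n n' : ℕ → ℝ} {P N₁ N₂ Nb ℓ ℓ₂ σ δ d : ℝ}

/-- **The near digits at a window of the mesh**, from the near digits at `b` and the height of the
place `1`. -/
theorem T2N.near (T : T2N sn G b o Λ (sn o) n n' P N₁ N₂ (sn o 2 + d) Nb (sn o 2 - o + d) ℓ ℓ₂ σ δ)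
    (h : GCh S (fun J F => ptr F J) y c 1 3 s A B Λ sn G) (hb : b ∈ G) (ho : o ∈ G) (hA : A ≤ b)
    (hbo : b ≤ o) (hB : o < B) (h1 : n 1 = sn o 1 + d) (h1' : n' 1 = sn o 1 + d)
    (hd : d + σ ≤ Λ) :
    Few S (fun J F => ptr F J) (vg o) y (nh m c sn b P N₁)
      (jetQ m c 1 3 o (sn o) (ndb sn o d)) := by
  have hσ := T.σ0
  have m1 := h.mono' (show 1 ≤ 1 by norm_num) (by norm_num) hb ho hA hbo hB
  have a4 := T.a4
  have a5 := T.a5
  rw [h1] at a4
  rw [h1'] at a5
  have pl1 : ∀ j' ≤ 1, Few S (fun J F => ptr F J) (vg o) y (nh m c sn b P N₁)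
      (qJet m ((range 1).image c) (c 1) j' o (sn o 1) (ndb sn o d 1 j')) := by
    intro j' hj'
    have k1 := h.gjet (i := 1) (j := j') (lv := fun _ => 1) (σ₀ := σ) (p₀ := sn b) (w := o)
      (x₀ := b) (x := b) (x' := o) (p := sn b 1) (p' := sn o 1) (N := fun _ _ => 0)
      (N₁ := nq sn b P N₁ 1 j') (N₂ := ndb sn o d 1 j') (by norm_num) (by norm_num) ho
      (hA.trans hbo) hB hbo hbo le_rfl (fun l a b' => by omega) hσ (fun _ _ _ => one_pos)
      (fun l a b' j' hj' => by omega) (fun l a b' => by omega)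
      (fun l a b' l' a' b'' => by omega) ?_ ?_ (fun l a b' => by omega)
    · refine few_lmap h.pos (fun u => ((fun _ _ => 0), pj 1 u 1 j'))
        (fun K e J F A' u hu => ?_) k1
      have h2 := (pjP (j := 1) le_rfl hu).1 1 le_rfl (by norm_num) j' hj'
      exact ⟨⟨fun l a b' => absurd b' (by omega), fun _ _ _ _ _ => rfl⟩, h2⟩
    · rcases Nat.eq_zero_or_pos j' with h5 | h5
      · subst h5
        have e2 : nq sn b P N₁ 1 0 = sn b 1 + N₁ := if_pos rfl
        rw [e2]
        unfold ndb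
        rw [Nat.cast_zero, zero_mul]
        linarith
      · obtain rfl : j' = 1 := by omega
        have e2 : nq sn b P N₁ 1 1 = sn b 1 - ((1 : ℕ) : ℝ) * b + P := if_neg one_ne_zero
        rw [e2]
        unfold ndb
        rw [Nat.cast_one, one_mul, one_mul]
        linarith
    · rw [min_eq_left m1]
      have h6 : (j' : ℝ) * o - (j' : ℝ) * o = 0 := sub_self _
      unfold ndb
      linarith [T.a1, T.L1, T.l2, T.l12]
  refine few_qjets h.pos fun i i0 i1 j' hj' => ?_
  obtain rfl | rfl : i = 1 ∨ i = 2 := by omega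
  · exact pl1 j' hj'
  · rcases Nat.eq_zero_or_pos j' with h5 | h5
    · subst h5
      have e1 : ndb sn o d 2 0 = sn o 2 + d := by
        unfold ndb
        rw [Nat.cast_zero, zero_mul]
        ring
      show Few S (fun J F => ptr F J) (vg o) y (nh m c sn b P N₁)
        (qJet m ((range 2).image c) (c 2) 0 o (sn o 2) (ndb sn o d 2 0))
      rw [e1]
      exact T.g2 h hb ho hA hbo hB
    · obtain rfl : j' = 1 := by omega
      have e1 : ndb sn o d 2 1 = sn o 2 - o + d := by
        unfold ndb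
        rw [Nat.cast_one, one_mul]
      show Few S (fun J F => ptr F J) (vg o) y (nh m c sn b P N₁)
        (qJet m ((range 2).image c) (c 2) 1 o (sn o 2) (ndb sn o d 2 1))
      rw [e1]
      exact T.g3 h hb ho hA hbo hB

section far

variable {a : ℕ → ℝ} {A' B' σ₀ : ℝ} {lv : ℕ → ℝ} {x P N₁ N₂ : ℝ}

/-- The near digits at `b` and the height of the place `1` from the far digits at `o`. -/
theorem far_nh (hF : FarR sn G 1 3 a Λ A' B' lv σ₀)
    (h : GCh S (fun J F => ptr F J) y c 1 3 s A B Λ sn G) (hA : A ≤ A') (hB : B' ≤ B)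
    (hb : b ∈ G) (ho : o ∈ G) (hbA : A' < b) (hbo : b ≤ o) (hoB : o < B')
    (hP : (o - b) + P ≤ σ₀ / 2) (hPΛ : (o - b) + P + σ₀ / 2 ≤ Λ)
    (hN : N₁ ≤ σ₀ / 2) (hNΛ : N₁ + σ₀ / 2 ≤ Λ) :
    Few S (fun J F => ptr F J) (vg o) y (jetQ m c 1 3 o (sn o) (nD sn a))
      (nh m c sn b P N₁) := by
  have hσ := hF.σ0
  have hoA : A' < o := hbA.trans_le hbo
  have hm : ∀ l, 1 ≤ l → l < 3 → sn b l ≤ sn o l := fun l l0 l1 =>
    h.mono' l0 (by omega) hb ho (by linarith) hbo (by linarith)
  have ff : ∀ l, 1 ≤ l → l < 3 → ∀ j' ≤ 1, sn o l + lv l + σ₀ ≤ nD sn a l j' + (j' : ℕ) * o :=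
    fun l l0 l1 j' hj' => hF.far ho hoA hoB l0 l1 hj'
  have l12 := hF.c2' o ho o ho hoA le_rfl hoB 2 (by norm_num) (by norm_num) 1 le_rfl (by norm_num)
  have l1 := hF.lv0 1 le_rfl (by norm_num)
  have l2 := hF.lv0 2 (by norm_num) (by norm_num)
  have hjo : ∀ j' ≤ 1, ((j' : ℕ) : ℝ) * (o - b) ≤ o - b := by
    intro j' hj'
    have h1 : ((j' : ℕ) : ℝ) ≤ 1 := by exact_mod_cast hj'
    have h2 := mul_le_mul_of_nonneg_right h1 (show 0 ≤ o - b by linarith)
    linarith
  refine Few.pair h.pos ?_ ?_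
  · refine h.jets_few (lv := lv) (σ₀ := σ₀ / 2) (p := sn o) (p' := sn b)
      (by norm_num) (by norm_num) ho (by linarith) (by linarith) le_rfl hbo
      (fun l l0 l1 => le_rfl) (by linarith) (fun l l0 l1 => hF.lv0 l l0 l1)
      (fun l l0 l1 j' hj' => by linarith [ff l l0 l1 j' hj'])
      (fun l l0 l1 => by linarith [hF.c2 o ho o ho hoA le_rfl hoB l l0 l1])
      (fun l l0 l1 l' l0' l1' => by
        linarith [hF.c2' o ho o ho hoA le_rfl hoB l l0 l1 l' l0' l1'])
      (fun l l0 l1 j' hj' => ?_) (fun l l0 l1 j' hj' => ?_) (fun l l0 l1 j' hj' l' l0' l1' => ?_)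
    · have h1 := ff l l0 l1 j' hj'
      have h2 := hjo j' hj'
      have h3 := hm l l0 l1
      have h4 := hF.lv0 l l0 l1
      unfold ndb
      linarith
    · rw [min_eq_right (hm l l0 l1)]
      have h2 := hjo j' hj'
      unfold ndb
      linarith
    · obtain rfl : l = 2 := by omega
      obtain rfl : l' = 1 := by omega
      rw [min_eq_right (hm 2 (by norm_num) (by norm_num))]
      have h2 := hjo j' hj'
      unfold ndb
      linarith
  · have k1 := h.gjet (i := 1) (j := 0) (lv := fun _ => 1) (σ₀ := σ₀ / 2) (p₀ := sn b) (w := o)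
      (x₀ := b) (x := o) (x' := b) (p := sn o 1) (p' := sn b 1) (N := fun _ _ => 0)
      (N₁ := nD sn a 1 0) (N₂ := sn b 1 + N₁) (by norm_num) (by norm_num) ho (by linarith)
      (by linarith) hbo le_rfl hbo (fun l a b => by omega) (by linarith)
      (fun _ _ _ => one_pos)
      (fun l a b j' hj' => by omega) (fun l a b => by omega) (fun l a b l' a' b'' => by omega)
      (by
        have h1 := ff 1 le_rfl (by norm_num) 0 (by norm_num)
        rw [Nat.cast_zero, zero_mul] at h1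
        linarith [hm 1 le_rfl (by norm_num)])
      (by
        rw [min_eq_right (hm 1 le_rfl (by norm_num)), Nat.cast_zero, zero_mul]
        linarith) (fun l a b => by omega)
    refine few_lmap h.pos (fun u => ((fun _ _ => 0), u 1 0)) (fun K e J F A'' u hu => ?_) k1
    exact ⟨⟨fun l a b' => absurd b' (by omega), fun _ _ _ _ _ => rfl⟩,
      hu.1 1 le_rfl (by norm_num) 0 (by norm_num)⟩

/-- The height of the place `2` over labels of `b` from the far digits at `o`. -/
theorem far_h2 (hF : FarR sn G 1 3 a Λ A' B' lv σ₀)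
    (h : GCh S (fun J F => ptr F J) y c 1 3 s A B Λ sn G) (hA : A ≤ A') (hB : B' ≤ B)
    (hb : b ∈ G) (ho : o ∈ G) (hbA : A' < b) (hbo : b ≤ o) (hoB : o < B')
    (hN : N₂ ≤ σ₀ / 2) (hNΛ : N₂ + σ₀ / 2 ≤ Λ) :
    Few S (fun J F => ptr F J) (vg o) y (jetQ m c 1 3 o (sn o) (nD sn a))
      (qJet m ((range 2).image c) (c 2) 0 b (sn b 2) (sn b 2 + N₂)) := by
  have hσ := hF.σ0
  have hoA : A' < o := hbA.trans_le hbo
  have m2 := h.mono' (show 1 ≤ 2 by norm_num) (by norm_num) hb ho (by linarith) hbo (by linarith)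
  have f1 := hF.far ho hoA hoB (l := 2) (j' := 0) (by norm_num) (by norm_num) (by norm_num)
  have f2 := hF.lv0 2 (by norm_num) (by norm_num)
  have f3 := hF.c2' o ho o ho hoA le_rfl hoB 2 (by norm_num) (by norm_num) 1 le_rfl (by norm_num)
  rw [Nat.cast_zero, zero_mul] at f1
  have k1 := h.jet_few (i := 2) (j := 0) (lv := lv) (σ₀ := σ₀ / 2) (p₀ := sn o) (w := o)
    (x₀ := o) (x := o) (x' := b) (p := sn o 2) (p' := sn b 2) (N := nD sn a)
    (N₁ := nD sn a 2 0) (N₂ := sn b 2 + N₂) (by norm_num) (by norm_num) (by norm_num) ho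
    (by linarith)
    (by linarith) le_rfl le_rfl hbo (fun l l0 l1 => le_rfl) (by linarith)
    (fun l l0 l1 => hF.lv0 l l0 (by omega))
    (fun l l0 l1 j' hj' => by linarith [hF.far ho hoA hoB l0 (show l < 3 by omega) hj'])
    (fun l l0 l1 => by linarith [hF.c2 o ho o ho hoA le_rfl hoB l l0 (by omega)])
    (fun l l0 l1 l' l0' l1' => by omega)
    (by linarith)
    (by
      rw [min_eq_right m2, Nat.cast_zero, zero_mul]
      linarith) (fun l l0 l1 => by
      obtain rfl : l = 1 := by omega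
      rw [min_eq_right m2, Nat.cast_zero, zero_mul]
      linarith)
  refine few_lmap h.pos (fun u => ((fun l j' => if 1 ≤ l ∧ l < 2 ∧ j' ≤ 1 then u l j' else 0),
    u 2 0)) (fun K e J F A'' u hu => ?_) k1
  exact ⟨qJets_take (by norm_num) le_rfl hu, hu.1 2 (by norm_num) (by norm_num) 0 (by norm_num)⟩

end far

end Pool.FUL71
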