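import Pool.Agent.H31.NJ.Nea
import Pool.Agent.H50.AVG.Asf

/-!
# The numbers of the mesh, the slope of the place 1 above the slope of the place 2

`t2n_gt`: the numbers `T2N` of a box for `Sl 2 ≤ Sl 1 < Sl 2 + 1`. `t2n_mesh`: the numbers at a window
of the mesh.
-/

set_option autoImplicit false

namespace Pool.FUL71

open Finset Real MvPolynomial MeasureTheory Filter
open Pool.Agent.H49.Ent Pool.Agent.H32.Dense Pool.STK Pool.KA Pool.KSAT Pool.K2S Pool.PB Pool.S6C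
open Pool.GEN Pool.RCD Pool.LA91 Pool.AVG96 Pool.AVG57 Pool.FUL95 Pool.OWN83 Pool.AVG50

/-- The steps of the mesh. -/
theorem mesh_num {sn : ℝ → ℕ → ℝ} {G : Set ℝ} {Sl : ℕ → ℝ} {b w R M κ₁ τ : ℝ}
    (hR : 0 < R) (hM2 : Sl 2 ≤ M) (hM : 1 ≤ M) (hS : Sl 2 ≤ Sl 1) (hS2 : 1 ≤ Sl 2)
    (hκ0 : 0 < κ₁) (hτ : τ = κ₁ / (24 * M)) (hb : b ∈ G)
    (hsl : ∀ l, 1 ≤ l → l ≤ 2 → ∀ u ∈ G, ∀ v ∈ G, b ≤ u → u ≤ v → v ≤ w →
      |sn v l - sn u l - Sl l * (v - u)| ≤ κ₁ / 8 * R) {o : ℝ} (how : o ≤ w) {low up : ℝ}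
    (hl : low ∈ G) (hu : up ∈ G) (q1 : b ≤ low) (q2 : low ≤ up) (q3 : up ≤ o)
    (q4 : up ≤ low + 3 * (τ * R)) :
    (sn up 1 - sn b 1) - (sn low 2 - sn b 2) ≤ (Sl 1 - Sl 2) * (o - b) + 3 / 8 * (κ₁ * R) := by
  have hS2' : 0 ≤ Sl 2 := by linarith
  have hτ0 : 0 < τ := by rw [hτ]; positivity
  have hMτ : 24 * M * τ = κ₁ := by rw [hτ]; field_simp
  have hMτR : 24 * (M * (τ * R)) = κ₁ * R := by rw [← hMτ]; ring
  have hτR : 0 < τ * R := by positivity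
  have e8 : κ₁ / 8 * R = κ₁ * R / 8 := by ring
  have m1 := (abs_le.1 (hsl 1 le_rfl (by norm_num) b hb up hu le_rfl (q1.trans q2)
    (q3.trans how))).2
  have m2 := (abs_le.1 (hsl 2 (by norm_num) le_rfl b hb low hl le_rfl q1
    ((q2.trans q3).trans how))).1
  rw [e8] at m1 m2
  have m3 : (Sl 1 - Sl 2) * (up - b) ≤ (Sl 1 - Sl 2) * (o - b) :=
    mul_le_mul_of_nonneg_left (by linarith) (by linarith)
  have m4 : Sl 2 * (up - low) ≤ Sl 2 * (3 * (τ * R)) :=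
    mul_le_mul_of_nonneg_left (by linarith) hS2'
  have m5 : Sl 2 * (3 * (τ * R)) ≤ M * (3 * (τ * R)) :=
    mul_le_mul_of_nonneg_right hM2 (by positivity)
  have m6 : Sl 2 * (up - b) = Sl 2 * (up - low) + Sl 2 * (low - b) := by ring
  have m7 : (Sl 1 - Sl 2) * (up - b) = Sl 1 * (up - b) - Sl 2 * (up - b) := by ring
  linarith

/-- **The numbers of a box.** `R`: the scale; `β₀`: the distance of the earlier window; `κ₁`: small. -/
theorem t2n_gt {sn : ℝ → ℕ → ℝ} {G : Set ℝ} {Sl : ℕ → ℝ} {b w j x Λ δW q ξ μ ν φ' C Cd R M β₀ κ₁ τ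
    L p₀ p₁ : ℝ} {p s D : ℕ → ℝ} (N : Bx2 sn 1 2 Sl w j x δW q ξ μ ν φ' (C * R) p s)
    (hR : 0 < R) (hC : 0 < C) (hCd : 0 < Cd) (hD : D 1 ≤ Cd)
    (hM : 1 ≤ M) (hM1 : Sl 1 ≤ M) (hS : Sl 2 ≤ Sl 1) (hS2 : 1 ≤ Sl 2) (hS3 : Sl 1 < Sl 2 + 1)
    (hβ₀ : (1 + Sl 2 - Sl 1) * β₀ = 4 * C + Cd + 1) (hκ0 : 0 < κ₁) (hκ1 : κ₁ ≤ 1)
    (hτ : τ = κ₁ / (24 * M))
    (hL : L = Cd + C + 3) (hb1 : w - β₀ * R - R ≤ b) (hb2 : b ≤ w - β₀ * R)
    (hb : b ∈ G) (hw : w ∈ G)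
    (hm : ∀ l, 1 ≤ l → l ≤ 2 → ∀ u ∈ G, ∀ v ∈ G, b ≤ u → u ≤ v → v ≤ w → sn u l ≤ sn v l)
    (hsl : ∀ l, 1 ≤ l → l ≤ 2 → ∀ u ∈ G, ∀ v ∈ G, b ≤ u → u ≤ v → v ≤ w →
      |sn v l - sn u l - Sl l * (v - u)| ≤ κ₁ / 8 * R)
    (gap : ∀ x, b ≤ x → x ≤ w → ∃ v ∈ G, |v - x| ≤ τ * R)
    (hΛ : (2 * (M * (β₀ + 1) + 1) + 6 * C + L + β₀ + 4) * R ≤ Λ) :
    T2N sn G b w Λ p (nB 1 p₀ sn w D R) (nB 1 p₁ sn w D R)
      (sn w 2 - sn b 2 + q + κ₁ * R)
      (sn w 1 - sn b 1 + (sn w 2 - sn b 2 + q + κ₁ * R) + L * R)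
      (sn w 2 - sn b 2 + q + ξ) (s 2 + q) (s 2 + q + ξ) (s 2 + (q + ξ + μ + ν) - w)
      (sn w 2 - sn b 2 + q + κ₁ * R + ξ + R) (q + ξ + μ + ν + φ' + κ₁ / 8 * R)
      (κ₁ / 8 * R) (τ * R) := by
  have hs2 := N.sc 2 (by norm_num) (by norm_num)
  have hq := N.q0
  have hξ := N.ξ0
  have hμ := N.μ0
  have hν := N.ν0
  have hqC := N.qC
  have hφν := N.φν
  have hwx := N.wx
  have hp1 := N.pc 1 le_rfl (by norm_num)
  have hp2 := N.pc 2 (by norm_num) (by norm_num)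
  have hxn1 := N.xn 1 le_rfl (by norm_num)
  have hS1 : 0 ≤ Sl 1 := by linarith
  have hφ0 : 0 ≤ φ' := by linarith [hp1.1, hp1.2]
  have hνq : ν ≤ q := by linarith [mul_nonneg hS1 (show 0 ≤ x - w by linarith)]
  have hτ0 : 0 < τ := by rw [hτ]; positivity
  have hκR : 0 < κ₁ * R := by positivity
  have hκR1 : κ₁ * R ≤ R := by
    have := mul_le_mul_of_nonneg_right hκ1 hR.le
    linarith
  have hτR : 0 < τ * R := by positivity
  have hCR : 0 < C * R := by positivity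
  have hCdR : 0 < Cd * R := by positivity
  have hLR : L * R = Cd * R + C * R + 3 * R := by rw [hL]; ring
  have hDR : D 1 * R ≤ Cd * R := mul_le_mul_of_nonneg_right hD hR.le
  have e8 : κ₁ / 8 * R = κ₁ * R / 8 := by ring
  have n1 : ∀ t : ℝ, nB 1 t sn w D R 1 = sn w 1 + D 1 * R := fun t => nB_ge le_rfl
  have hΔ0 : 0 < 1 + Sl 2 - Sl 1 := by linarith
  have hβ0 : 0 < β₀ := by
    by_contra hcon
    have := mul_nonpos_of_nonneg_of_nonpos hΔ0.le (not_lt.1 hcon)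
    linarith
  have hβR0 : 0 < β₀ * R := by positivity
  have hbw : b ≤ w := by linarith
  have hβR : 4 * (C * R) + Cd * R + R ≤ (1 + Sl 2 - Sl 1) * (w - b) := by
    have h1 : (1 + Sl 2 - Sl 1) * (β₀ * R) ≤ (1 + Sl 2 - Sl 1) * (w - b) :=
      mul_le_mul_of_nonneg_left (by linarith) hΔ0.le
    have h2 : (1 + Sl 2 - Sl 1) * (β₀ * R) = 4 * (C * R) + Cd * R + R := by
      rw [← mul_assoc, hβ₀]
      ring
    linarith
  have hΔ1 : (1 + Sl 2 - Sl 1) * (w - b) ≤ 1 * (w - b) :=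
    mul_le_mul_of_nonneg_right (by linarith) (by linarith)
  -- the levels
  have k1 := abs_le.1 (hsl 1 le_rfl (by norm_num) b hb w hw le_rfl hbw le_rfl)
  have k2 := abs_le.1 (hsl 2 (by norm_num) le_rfl b hb w hw le_rfl hbw le_rfl)
  have hm1 := hm 1 le_rfl (by norm_num) b hb w hw le_rfl hbw le_rfl
  have hm2 := hm 2 (by norm_num) le_rfl b hb w hw le_rfl hbw le_rfl
  rw [e8] at k1 k2
  have sβ : Sl 2 * (w - b) ≤ Sl 1 * (w - b) :=
    mul_le_mul_of_nonneg_right hS (by linarith)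
  have sM : Sl 1 * (w - b) ≤ M * (β₀ + 1) * R := by
    have h1 : Sl 1 * (w - b) ≤ M * (w - b) := mul_le_mul_of_nonneg_right hM1 (by linarith)
    have h2 : M * (w - b) ≤ M * ((β₀ + 1) * R) :=
      mul_le_mul_of_nonneg_left (by linarith) (by linarith)
    linarith
  have s0 : 1 * (w - b) ≤ Sl 2 * (w - b) := mul_le_mul_of_nonneg_right hS2 (by linarith)
  have hΛ' : 2 * (M * (β₀ + 1) * R) + 2 * R + 6 * (C * R) + L * R + β₀ * R + 4 * R ≤ Λ := by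
    have : (2 * (M * (β₀ + 1) + 1) + 6 * C + L + β₀ + 4) * R = 2 * (M * (β₀ + 1) * R) + 2 * R +
      6 * (C * R) + L * R + β₀ * R + 4 * R := by ring
    linarith
  have mesh : ∀ low ∈ G, ∀ up ∈ G, b ≤ low → low ≤ up → up ≤ w → up ≤ low + 3 * (τ * R) →
      (sn up 1 - sn b 1) - (sn low 2 - sn b 2) ≤ (Sl 1 - Sl 2) * (w - b) + 3 / 8 * (κ₁ * R) :=
    fun low hl up hu q1 q2 q3 q4 =>
      mesh_num hR (by linarith) hM hS hS2 hκ0 hτ hb hsl le_rfl hl hu q1 q2 q3 q4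
  have eΔ : (1 + Sl 2 - Sl 1) * (w - b) = (w - b) + Sl 2 * (w - b) - Sl 1 * (w - b) := by ring
  have eΔ' : (Sl 1 - Sl 2) * (w - b) = Sl 1 * (w - b) - Sl 2 * (w - b) := by ring
  rw [eΔ] at hβR hΔ1
  rw [eΔ'] at mesh
  rw [e8, hs2]
  exact
  { σ0 := by positivity
    δ0 := hτR
    gap := gap
    p1 := hp1.2
    p2 := hp2.2
    l2 := by linarith
    l12 := by linarith
    a1 := by linarith
    a2 := by linarith
    a4 := by
      rw [n1]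
      linarith
    a5 := by
      rw [n1]
      linarith
    b1 := by linarith
    b2 := by linarith
    b3 := by linarith
    c1 := by linarith [hp2.1]
    c2 := by linarith
    c3 := by linarith [hp2.1]
    c4 := by linarith
    c5 := by linarith [hp2.1]
    c6 := by linarith
    P2 := by linarith
    PN := by linarith
    d1 := fun low hl up hu q1 q2 q3 q4 => by linarith [mesh low hl up hu q1 q2 q3 q4]
    d2 := fun low hl up hu q1 q2 q3 q4 => by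
      have h1 := hm 1 le_rfl (by norm_num) up hu w hw (q1.trans q2) q3 le_rfl
      have h2 := hm 2 (by norm_num) le_rfl b hb low hl le_rfl q1 (q2.trans q3)
      linarith
    d3 := by linarith
    L1 := by linarith
    L2 := by linarith [hp1.1]
    L3 := by linarith [hp1.1]
    L4 := by linarith
    L5 := by linarith }

/-- **The numbers at a window of the mesh.** `Q`: the digits of the box at `w`. -/
theorem t2n_mesh {sn : ℝ → ℕ → ℝ} {G : Set ℝ} {Sl : ℕ → ℝ} {b w Λ Q ξ R M κ₁ τ L : ℝ}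
    (hR : 0 < R) (hQ : 0 < Q) (hξ : 0 < ξ) (hξL : ξ + 3 * R ≤ L * R)
    (hM : 1 ≤ M) (hM1 : Sl 1 ≤ M) (hS : Sl 2 ≤ Sl 1) (hS2 : 1 ≤ Sl 2) (hS3 : Sl 1 < Sl 2 + 1)
    (hκ0 : 0 < κ₁) (hκ1 : κ₁ ≤ 1) (hτ : τ = κ₁ / (24 * M))
    (hβ : κ₁ * R ≤ (1 + Sl 2 - Sl 1) * (w - b)) (hb : b ∈ G) (hw : w ∈ G)
    (hm : ∀ l, 1 ≤ l → l ≤ 2 → ∀ u ∈ G, ∀ v ∈ G, b ≤ u → u ≤ v → v ≤ w → sn u l ≤ sn v l)
    (hsl : ∀ l, 1 ≤ l → l ≤ 2 → ∀ u ∈ G, ∀ v ∈ G, b ≤ u → u ≤ v → v ≤ w →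
      |sn v l - sn u l - Sl l * (v - u)| ≤ κ₁ / 8 * R)
    (gap : ∀ x, b ≤ x → x ≤ w → ∃ v ∈ G, |v - x| ≤ τ * R)
    (hΛ : sn w 1 - sn b 1 + (sn w 2 - sn b 2 + Q + κ₁ * R) + L * R + (w - b) + R ≤ Λ)
    {o : ℝ} (ho : o ∈ G) (hbo : b ≤ o) (how : o ≤ w) :
    T2N sn G b o Λ (sn o) (fun _ => sn o 1 + (Q + κ₁ / 2 * R)) (fun _ => sn o 1 +
      (Q + κ₁ / 2 * R)) (sn w 2 - sn b 2 + Q + κ₁ * R)
      (sn w 1 - sn b 1 + (sn w 2 - sn b 2 + Q + κ₁ * R) + L * R)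
      (sn w 2 - sn b 2 + Q + ξ) (sn o 2 + (Q + κ₁ / 2 * R)) (sn w 2 + Q + ξ)
      (sn o 2 - o + (Q + κ₁ / 2 * R))
      (sn w 2 - sn b 2 + Q + κ₁ * R + ξ + R) (Q + κ₁ / 2 * R + κ₁ / 8 * R)
      (κ₁ / 8 * R) (τ * R) := by
  have hτ0 : 0 < τ := by rw [hτ]; positivity
  have hκR : 0 < κ₁ * R := by positivity
  have hκR1 : κ₁ * R ≤ R := by
    have := mul_le_mul_of_nonneg_right hκ1 hR.le
    linarith
  have hτR : 0 < τ * R := by positivity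
  have e8 : κ₁ / 8 * R = κ₁ * R / 8 := by ring
  have e2 : κ₁ / 2 * R = κ₁ * R / 2 := by ring
  have hΔ0 : 0 < 1 + Sl 2 - Sl 1 := by linarith
  have hbw : b ≤ w := hbo.trans how
  -- the levels
  have k1 := abs_le.1 (hsl 1 le_rfl (by norm_num) b hb o ho le_rfl hbo how)
  have k2 := abs_le.1 (hsl 2 (by norm_num) le_rfl b hb w hw le_rfl hbw le_rfl)
  have k3 := abs_le.1 (hsl 2 (by norm_num) le_rfl b hb o ho le_rfl hbo how)
  have m1 := hm 1 le_rfl (by norm_num) b hb o ho le_rfl hbo how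
  have m2 := hm 2 (by norm_num) le_rfl b hb o ho le_rfl hbo how
  have m1' := hm 1 le_rfl (by norm_num) o ho w hw hbo how le_rfl
  have m2' := hm 2 (by norm_num) le_rfl o ho w hw hbo how le_rfl
  rw [e8] at k1 k2 k3
  have sβ : (Sl 1 - 1) * (o - b) ≤ (Sl 1 - 1) * (w - b) :=
    mul_le_mul_of_nonneg_left (by linarith) (by linarith)
  have e1 : (Sl 1 - 1) * (o - b) = Sl 1 * (o - b) - (o - b) := by ring
  have e1' : (Sl 1 - 1) * (w - b) = Sl 1 * (w - b) - (w - b) := by ring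
  have mesh : ∀ low ∈ G, ∀ up ∈ G, b ≤ low → low ≤ up → up ≤ o → up ≤ low + 3 * (τ * R) →
      (sn up 1 - sn b 1) - (sn low 2 - sn b 2) ≤ (Sl 1 - Sl 2) * (o - b) + 3 / 8 * (κ₁ * R) :=
    fun low hl up hu q1 q2 q3 q4 =>
      mesh_num hR (by linarith) hM hS hS2 hκ0 hτ hb hsl how hl hu q1 q2 q3 q4
  have eΔ : (1 + Sl 2 - Sl 1) * (w - b) = (w - b) + Sl 2 * (w - b) - Sl 1 * (w - b) := by ring
  have eΔ' : (Sl 1 - Sl 2) * (o - b) = Sl 1 * (o - b) - Sl 2 * (o - b) := by ring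
  rw [eΔ] at hβ
  rw [eΔ'] at mesh
  rw [e8, e2]
  exact
  { σ0 := by positivity
    δ0 := hτR
    gap := fun x h1 h2 => gap x h1 (h2.trans how)
    p1 := le_rfl
    p2 := le_rfl
    l2 := by linarith
    l12 := by linarith
    a1 := by linarith
    a2 := by linarith
    a4 := by
      show sn o 1 + (Q + κ₁ * R / 2) ≤ _
      linarith
    a5 := by
      show sn o 1 + (Q + κ₁ * R / 2) - o ≤ _
      linarith
    b1 := by linarith
    b2 := by linarith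
    b3 := by linarith
    c1 := by linarith
    c2 := by linarith
    c3 := by linarith
    c4 := by linarith
    c5 := by linarith
    c6 := by linarith
    P2 := by linarith
    PN := by linarith
    d1 := fun low hl up hu q1 q2 q3 q4 => by linarith [mesh low hl up hu q1 q2 q3 q4]
    d2 := fun low hl up hu q1 q2 q3 q4 => by
      have h1 := hm 1 le_rfl (by norm_num) up hu w hw (q1.trans q2) (q3.trans how) le_rfl
      have h2 := hm 2 (by norm_num) le_rfl b hb low hl le_rfl q1 ((q2.trans q3).trans how)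
      linarith
    d3 := by linarith
    L1 := by linarith
    L2 := by linarith
    L3 := by linarith
    L4 := by linarith
    L5 := by linarith }

end Pool.FUL71
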